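import Pool.Agent.Helper7.HL.Stmts

/-!
Row TT: triangularity and the leading coefficient of the integral Macdonald polynomials.
-/

namespace Pool.Agent.Helper34.HL

open Finset MvPolynomial
open Pool.Agent.Helper7.HL Pool.Agent.Helper32.HG

theorem Dge_trans {k : ℕ} {a b c : Fin k → ℤ} (h : Dge a b) (h' : Dge b c) : Dge a c := by
  intro T
  obtain ⟨S, hS, h1⟩ := h' T
  obtain ⟨S', hS', h2⟩ := h S
  exact ⟨S', hS'.trans hS, h1.trans h2⟩

theorem Dge_perm_right {k : ℕ} {a b : Fin k → ℤ} (h : Dge a b) (σ : Equiv.Perm (Fin k)) :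
    Dge a (fun i => b (σ i)) := by
  intro T
  obtain ⟨S, hS, h1⟩ := h (T.map σ.toEmbedding)
  refine ⟨S, by rw [hS, card_map], ?_⟩
  rw [sum_map] at h1
  exact h1

theorem Dge_perm_left {k : ℕ} {a b : Fin k → ℤ} (h : Dge a b) (σ : Equiv.Perm (Fin k)) :
    Dge (fun i => a (σ i)) b := by
  intro T
  obtain ⟨S, hS, h1⟩ := h T
  refine ⟨S.map σ.symm.toEmbedding, by rw [card_map, hS], ?_⟩
  rw [sum_map]
  simpa using h1

theorem Dge_add_one {k : ℕ} {a b : Fin k → ℤ} (h : Dge a b) :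
    Dge (fun i => a i + 1) (fun i => b i + 1) := by
  intro T
  obtain ⟨S, hS, h1⟩ := h T
  refine ⟨S, hS, ?_⟩
  rw [sum_add_distrib, sum_add_distrib, sum_const, sum_const, hS]
  linarith

theorem Dge_snoc {k : ℕ} {a b : Fin k → ℕ} (h : Dge (fun i => (a i : ℤ)) (fun i => (b i : ℤ))) :
    Dge (fun i => (((Fin.snoc a 0 : Fin (k + 1) → ℕ) i : ℕ) : ℤ))
      (fun i => (((Fin.snoc b 0 : Fin (k + 1) → ℕ) i : ℕ) : ℤ)) := by
  classical
  intro T
  set T' : Finset (Fin k) := univ.filter (fun i => Fin.castSucc i ∈ T) with hT'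
  obtain ⟨S', hS', h1⟩ := h T'
  have key : ∀ (T : Finset (Fin (k + 1))) (c : Fin k → ℕ),
      ∑ i ∈ T, (((Fin.snoc c 0 : Fin (k + 1) → ℕ) i : ℕ) : ℤ)
        = ∑ i ∈ univ.filter (fun i : Fin k => Fin.castSucc i ∈ T), (c i : ℤ) := by
    intro T c
    rw [← sum_filter_add_sum_filter_not T (fun i => i = Fin.last k)]
    have e1 : ∑ i ∈ T.filter (fun i => i = Fin.last k),
        (((Fin.snoc c 0 : Fin (k + 1) → ℕ) i : ℕ) : ℤ) = 0 := by
      refine sum_eq_zero fun i hi => ?_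
      rw [(mem_filter.1 hi).2, Fin.snoc_last]
      rfl
    rw [e1, zero_add]
    symm
    refine sum_bij (fun i _ => Fin.castSucc i) ?_ ?_ ?_ ?_
    · intro i hi
      exact mem_filter.2 ⟨(mem_filter.1 hi).2, Fin.castSucc_ne_last i⟩
    · intro i _ j _ hij
      exact Fin.castSucc_injective k hij
    · intro i hi
      have hi' := mem_filter.1 hi
      refine ⟨i.castPred hi'.2, ?_, Fin.castSucc_castPred i hi'.2⟩
      refine mem_filter.2 ⟨mem_univ _, ?_⟩
      rw [Fin.castSucc_castPred]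
      exact hi'.1
    · intro i _
      rw [Fin.snoc_castSucc]
  have hcardT : T.card = T'.card + (if Fin.last k ∈ T then 1 else 0) := by
    rw [← card_filter_add_card_filter_not (s := T) (fun i => i = Fin.last k), add_comm]
    congr 1
    · symm
      refine card_bij (fun i _ => Fin.castSucc i) ?_ ?_ ?_
      · intro i hi
        exact mem_filter.2 ⟨(mem_filter.1 hi).2, Fin.castSucc_ne_last i⟩
      · intro i _ j _ hij
        exact Fin.castSucc_injective k hij
      · intro i hi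
        have hi' := mem_filter.1 hi
        refine ⟨i.castPred hi'.2, ?_, Fin.castSucc_castPred i hi'.2⟩
        refine mem_filter.2 ⟨mem_univ _, ?_⟩
        rw [Fin.castSucc_castPred]
        exact hi'.1
    · rw [filter_eq']
      split_ifs <;> simp
  set S0 : Finset (Fin (k + 1)) := S'.map ⟨Fin.castSucc, Fin.castSucc_injective k⟩ with hS0
  set S : Finset (Fin (k + 1)) := if Fin.last k ∈ T then insert (Fin.last k) S0 else S0 with hS
  have hlast : Fin.last k ∉ S0 := by
    intro hmem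
    obtain ⟨i, _, hi⟩ := mem_map.1 hmem
    exact Fin.castSucc_ne_last i hi
  have hSfil : univ.filter (fun i : Fin k => Fin.castSucc i ∈ S) = S' := by
    ext i
    simp only [mem_filter, mem_univ, true_and]
    have hi0 : Fin.castSucc i ∈ S0 ↔ i ∈ S' := by
      rw [hS0, mem_map]
      constructor
      · rintro ⟨j, hj, hji⟩
        have : j = i := Fin.castSucc_injective k hji
        rwa [← this]
      · intro hi
        exact ⟨i, hi, rfl⟩
    rw [hS]
    split_ifs
    · rw [mem_insert, hi0]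
      constructor
      · rintro (h0 | h0)
        · exact absurd h0 (Fin.castSucc_ne_last i)
        · exact h0
      · exact fun h0 => Or.inr h0
    · exact hi0
  refine ⟨S, ?_, ?_⟩
  · rw [hcardT, ← hS', hS]
    split_ifs
    · rw [card_insert_of_notMem hlast, hS0, card_map]
    · rw [hS0, card_map, add_zero]
  · rw [key, key, hSfil]
    exact h1

theorem prodX_coeff {k : ℕ} {S : Type} [CommRing S] (p : MvPolynomial (Fin k) S)
    (β : Fin k → ℕ) :
    coeff (ex β) ((∏ i : Fin k, X i) * p) =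
      if ∀ i, 1 ≤ β i then coeff (ex (fun i => β i - 1)) p else 0 := by
  classical
  have h1 : (∏ i : Fin k, (X i : MvPolynomial (Fin k) S)) = monomial (ex (fun _ => 1)) 1 := by
    have h2 : (ex (fun _ : Fin k => 1)) = ∑ i : Fin k, Finsupp.single i 1 := by
      ext j
      rw [ex_apply, Finsupp.finsetSum_apply, sum_eq_single j]
      · simp
      · intro b _ hb
        rw [Finsupp.single_apply, if_neg hb]
      · intro h
        exact absurd (mem_univ _) h
    rw [h2, monomial_sum_one]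
    rfl
  rw [h1, coeff_monomial_mul', one_mul]
  have h3 : (ex (fun _ : Fin k => 1) ≤ ex β) ↔ ∀ i, 1 ≤ β i := by
    rw [Finsupp.le_def]
    rfl
  have h4 : ex β - ex (fun _ : Fin k => 1) = ex (fun i => β i - 1) := by
    ext i
    rfl
  rw [h4]
  by_cases h : ∀ i, 1 ≤ β i
  · rw [if_pos h, if_pos (h3.2 h)]
  · rw [if_neg h, if_neg (fun h' => h (h3.1 h'))]

theorem L1 (hAL1 : ST_AL1) {k : ℕ} {S : Type} [CommRing S] (G : MvPolynomial (Fin k) S)
    (ν : Fin k → ℕ) (h : ∀ σ : Equiv.Perm (Fin k), σ ≠ 1 →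
      (∀ i, dl k (σ i) ≤ ν i + dl k i) →
      coeff (ex (fun i => ν i + dl k i - dl k (σ i))) G = 0) :
    coeff (ex (fun i => ν i + dl k i)) (Dl k S * G) = coeff (ex ν) G := by
  rw [(hAL1 k S).2.2.2, sum_eq_single (1 : Equiv.Perm (Fin k))]
  · rw [if_pos (fun i => by simp)]
    simp
  · intro σ _ hσ
    split_ifs with hc
    · rw [h σ hσ hc, mul_zero]
    · rfl
  · intro h1
    exact absurd (mem_univ _) h1

theorem L2 (hDC : ST_DC) {k : ℕ} {S : Type} [CommRing S] (q t v : S)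
    (F : MvPolynomial (Fin k) S)
    (ν : Fin k → ℕ) (h : ∀ σ : Equiv.Perm (Fin k), σ ≠ 1 →
      (∀ i, dl k i ≤ ν (σ i) + dl k (σ i)) →
      coeff (ex (fun i => ν (σ i) + dl k (σ i) - dl k i)) F = 0) :
    coeff (ex (fun i => ν i + dl k i)) (Dop q t v k F)
      = coeff (ex ν) F * ∏ i, (1 - v * q ^ (ν i) * t ^ (dl k i)) := by
  rw [(hDC k S q t v).1, sum_eq_single (1 : Equiv.Perm (Fin k))]
  · rw [if_pos (fun i => by simp)]
    simp
  · intro σ _ hσ
    split_ifs with hc
    · rw [h σ hσ hc, zero_mul, mul_zero]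
    · rfl
  · intro h1
    exact absurd (mem_univ _) h1

/-- the exponents `κ = ν + δ - δ ∘ σ` -/
theorem PDa (hPD : ST_PD) {k : ℕ} (ν : Fin k → ℕ) (hν : Antitone ν) (σ : Equiv.Perm (Fin k))
    (hc : ∀ i, dl k (σ i) ≤ ν i + dl k i) :
    Dge (fun i => ((ν i + dl k i - dl k (σ i) : ℕ) : ℤ)) (fun i => (ν i : ℤ)) ∧
    (Dge (fun i => (ν i : ℤ)) (fun i => ((ν i + dl k i - dl k (σ i) : ℕ) : ℤ)) → σ = 1) := by
  have h := hPD k ν σ⁻¹ hν
  constructor
  · have h1 := Dge_perm_left h.1 σ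
    have h2 : (fun i => ((ν i + dl k i - dl k (σ i) : ℕ) : ℤ))
        = fun i => (ν (σ⁻¹ (σ i)) : ℤ) + dl k (σ⁻¹ (σ i)) - dl k (σ i) := by
      funext i
      have e1 : σ⁻¹ (σ i) = i := by simp
      rw [e1, Nat.cast_sub (hc i), Nat.cast_add]
    rw [h2]
    exact h1
  · intro h1
    have h2 := Dge_perm_right h1 σ⁻¹
    have h3 : (fun i => ((ν (σ⁻¹ i) + dl k (σ⁻¹ i) - dl k (σ (σ⁻¹ i)) : ℕ) : ℤ))
        = fun i => (ν (σ⁻¹ i) : ℤ) + dl k (σ⁻¹ i) - dl k i := by
      funext i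
      have e1 : σ (σ⁻¹ i) = i := by simp
      rw [Nat.cast_sub (hc (σ⁻¹ i)), Nat.cast_add, e1]
    have h4 : σ⁻¹ = 1 := h.2 (by
      rw [← h3]
      exact h2)
    exact inv_eq_one.1 h4

/-- the exponents `(ν + δ) ∘ σ - δ` -/
theorem PDb (hPD : ST_PD) {k : ℕ} (ν : Fin k → ℕ) (hν : Antitone ν) (σ : Equiv.Perm (Fin k))
    (hc : ∀ i, dl k i ≤ ν (σ i) + dl k (σ i)) :
    Dge (fun i => ((ν (σ i) + dl k (σ i) - dl k i : ℕ) : ℤ)) (fun i => (ν i : ℤ)) ∧
    (Dge (fun i => (ν i : ℤ)) (fun i => ((ν (σ i) + dl k (σ i) - dl k i : ℕ) : ℤ)) → σ = 1) := by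
  have h := hPD k ν σ hν
  have h3 : (fun i => ((ν (σ i) + dl k (σ i) - dl k i : ℕ) : ℤ))
      = fun i => (ν (σ i) : ℤ) + dl k (σ i) - dl k i := by
    funext i
    rw [Nat.cast_sub (hc i), Nat.cast_add]
  rw [h3]
  exact h

/-- the statement for one list and one number of variables -/
def PP {K : Type} [Field K] (q t : K) (N : ℕ) (cs : List ℕ) : Prop :=
  (∀ γ : Fin N → ℕ, coeff (ex γ) (fJ q t N cs) ≠ 0 →
    Dge (fun i => (rowl N cs i : ℤ)) (fun i => (γ i : ℤ))) ∧
  coeff (ex (rowl N cs)) (fJ q t N cs) = clf q t cs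

theorem symm_coeff {N : ℕ} {S : Type} [CommRing S] {f : MvPolynomial (Fin N) S}
    (hf : f.IsSymmetric) (γ : Fin N → ℕ) (σ : Equiv.Perm (Fin N)) :
    coeff (ex (γ ∘ σ)) f = coeff (ex γ) f := by
  have h1 := hf σ
  have h2 : Finsupp.mapDomain σ (ex (γ ∘ σ)) = ex γ := by
    ext i
    have h3 : i = σ (σ.symm i) := by simp
    rw [h3, Finsupp.mapDomain_apply σ.injective]
    rfl
  rw [← h2]
  conv_rhs => rw [← h1]
  rw [coeff_rename_mapDomain _ σ.injective]

theorem badset (hSTB : ST_STB) (hPM : ST_PM) {K : Type} [Field K] (q t : K) (N : ℕ)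
    (cs : List ℕ) (ρ : Fin N → ℕ)
    (hne : ∃ γ : Fin N → ℕ, coeff (ex γ) (fJ q t N cs) ≠ 0 ∧
      ¬ Dge (fun i => (ρ i : ℤ)) (fun i => (γ i : ℤ))) :
    ∃ ν : Fin N → ℕ, coeff (ex ν) (fJ q t N cs) ≠ 0 ∧
      ¬ Dge (fun i => (ρ i : ℤ)) (fun i => (ν i : ℤ)) ∧ Antitone ν ∧
      ∀ σ : Equiv.Perm (Fin N), σ ≠ 1 →
        ((∀ i, dl N i ≤ ν (σ i) + dl N (σ i)) →
          coeff (ex (fun i => ν (σ i) + dl N (σ i) - dl N i)) (fJ q t N cs) ≠ 0 →
          Dge (fun i => (ρ i : ℤ)) (fun i => ((ν (σ i) + dl N (σ i) - dl N i : ℕ) : ℤ))) ∧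
        ((∀ i, dl N (σ i) ≤ ν i + dl N i) →
          coeff (ex (fun i => ν i + dl N i - dl N (σ i))) (fJ q t N cs) ≠ 0 →
          Dge (fun i => (ρ i : ℤ)) (fun i => ((ν i + dl N i - dl N (σ i) : ℕ) : ℤ))) := by
  classical
  set B : Set (Fin N → ℕ) := {γ | coeff (ex γ) (fJ q t N cs) ≠ 0 ∧
      ¬ Dge (fun i => (ρ i : ℤ)) (fun i => (γ i : ℤ))} with hB
  have hfin : B.Finite := by
    refine Set.Finite.subset
      ((fJ q t N cs).support.finite_toSet.image (fun s : Fin N →₀ ℕ => fun i => s i)) ?_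
    intro γ hγ
    refine ⟨ex γ, ?_, rfl⟩
    exact mem_coe.2 (mem_support_iff.2 hγ.1)
  have hperm : ∀ γ ∈ B, ∀ σ : Equiv.Perm (Fin N), γ ∘ σ ∈ B := by
    rintro γ ⟨h1, h2⟩ σ
    refine ⟨?_, ?_⟩
    · have h6 : (fJ q t N cs).IsSymmetric := (hSTB K (ptm t (Hc q t cs))).1 N
      rw [symm_coeff h6]
      exact h1
    · intro h3
      apply h2
      have h4 := Dge_perm_right h3 σ⁻¹
      have h5 : (fun i => (((γ ∘ σ) (σ⁻¹ i) : ℕ) : ℤ)) = fun i => (γ i : ℤ) := by
        funext i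
        simp
      rw [← h5]
      exact h4
  obtain ⟨ν, hν, hanti, hσ⟩ := hPM N B hfin hne hperm
  refine ⟨ν, hν.1, hν.2, hanti, ?_⟩
  intro σ hσ1
  obtain ⟨ha, hb⟩ := hσ σ hσ1
  constructor
  · intro hc hne0
    by_contra hD
    exact ha hc ⟨hne0, hD⟩
  · intro hc hne0
    by_contra hD
    exact hb hc ⟨hne0, hD⟩

theorem step_a (hUN : ST_UN) (hSTB : ST_STB) (hPD : ST_PD) (hPM : ST_PM) (hAL1 : ST_AL1)
    (hDC : ST_DC) {K : Type} [Field K] (q t : K) (k : ℕ) (cs : List ℕ)
    (hdec : Dec (k :: cs)) (ih : PP q t k cs) : PP q t k (k :: cs) := by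
  classical
  have hU := (hUN K q t).1 k cs hdec
  have hrow : ∀ i, rowl k (k :: cs) i = rowl k cs i + 1 := by
    intro i
    unfold rowl
    rw [List.countP_cons]
    simp [i.isLt]
  have hrowZ : (fun i => (rowl k (k :: cs) i : ℤ)) = fun i => (rowl k cs i : ℤ) + 1 := by
    funext i
    rw [hrow i]
    push_cast
    rfl
  have hanti : Antitone (rowl k cs) := by
    intro i j hij
    unfold rowl
    refine List.countP_mono_left ?_
    intro c _ hc
    have : j.val < c := by simpa using hc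
    simpa using lt_of_le_of_lt (Fin.le_def.1 hij) this
  have hA : ∀ γ : Fin k → ℕ, coeff (ex γ) (fJ q t k (k :: cs)) ≠ 0 →
      Dge (fun i => (rowl k (k :: cs) i : ℤ)) (fun i => (γ i : ℤ)) := by
    by_contra hcon
    push Not at hcon
    obtain ⟨ν, hν0, hνD, hνa, hσ⟩ := badset hSTB hPM q t k (k :: cs) (rowl k (k :: cs)) hcon
    have h1 := L1 hAL1 (fJ q t k (k :: cs)) ν (by
      intro σ hσ1 hc
      by_contra hne
      exact hνD (Dge_trans ((hσ σ hσ1).2 hc hne) (PDa hPD ν hνa σ hc).1))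
    rw [hU, prodX_coeff] at h1
    have h2 : (if ∀ i, 1 ≤ ν i + dl k i then
        coeff (ex (fun i => ν i + dl k i - 1)) (Dop q t t k (fJ q t k cs)) else 0) ≠ 0 := by
      rw [h1]
      exact hν0
    have h3 : ∀ i, 1 ≤ ν i + dl k i := by
      by_contra h3
      rw [if_neg h3] at h2
      exact h2 rfl
    rw [if_pos h3, (hDC k K q t t).1] at h2
    obtain ⟨σ, _, hσne⟩ := exists_ne_zero_of_sum_ne_zero h2
    have hc : ∀ i, dl k i ≤ ν (σ i) + dl k (σ i) - 1 := by
      by_contra hc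
      rw [if_neg hc] at hσne
      exact hσne rfl
    rw [if_pos hc] at hσne
    have hF : coeff (ex (fun i => ν (σ i) + dl k (σ i) - 1 - dl k i)) (fJ q t k cs) ≠ 0 := by
      intro h0
      rw [h0] at hσne
      simp at hσne
    have h4 := ih.1 _ hF
    have hν1 : ∀ i, 1 ≤ ν i := by
      intro i
      have hk : 0 < k := i.pos
      have hl := h3 ⟨k - 1, by omega⟩
      have hd : dl k ⟨k - 1, by omega⟩ = 0 := by
        unfold dl
        simp
      rw [hd, add_zero] at hl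
      refine hl.trans (hνa ?_)
      rw [Fin.le_def]
      have := i.isLt
      simp only
      omega
    have hν' : Antitone (fun i => ν i - 1) := fun i j hij => Nat.sub_le_sub_right (hνa hij) 1
    have h5 := (PDb hPD (fun i => ν i - 1) hν' σ (fun i => by
      have a1 := hc i
      have a2 := hν1 (σ i)
      show dl k i ≤ ν (σ i) - 1 + dl k (σ i)
      omega)).1
    have h6 : (fun i => ((ν (σ i) + dl k (σ i) - 1 - dl k i : ℕ) : ℤ))
        = fun i => ((ν (σ i) - 1 + dl k (σ i) - dl k i : ℕ) : ℤ) := by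
      funext i
      congr 1
      have a2 := hν1 (σ i)
      omega
    rw [h6] at h4
    have h7 := Dge_add_one (Dge_trans h4 h5)
    apply hνD
    rw [hrowZ]
    have h8 : (fun i => (((ν i - 1 : ℕ) : ℤ)) + 1) = fun i => (ν i : ℤ) := by
      funext i
      have a2 := hν1 i
      push_cast [Nat.cast_sub a2]
      ring
    rw [← h8]
    exact h7
  refine ⟨hA, ?_⟩
  -- the leading coefficient
  have hanti1 : Antitone (rowl k (k :: cs)) := by
    intro i j hij
    rw [hrow, hrow]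
    exact Nat.add_le_add_right (hanti hij) 1
  have h1 := L1 hAL1 (fJ q t k (k :: cs)) (rowl k (k :: cs)) (by
    intro σ hσ1 hc
    by_contra hne
    exact hσ1 ((PDa hPD _ hanti1 σ hc).2 (hA _ hne)))
  rw [hU, prodX_coeff, if_pos (fun i => by
    rw [hrow]
    omega)] at h1
  have h2 : (fun i => rowl k (k :: cs) i + dl k i - 1) = fun i => rowl k cs i + dl k i := by
    funext i
    rw [hrow]
    omega
  rw [h2] at h1
  have h3 := L2 hDC q t t (fJ q t k cs) (rowl k cs) (by
    intro σ hσ1 hc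
    by_contra hne
    exact hσ1 ((PDb hPD _ hanti σ hc).2 (ih.1 _ hne)))
  rw [← h1, h3, ih.2]
  show clf q t cs * _ = (∏ i : Fin k, (1 - t * q ^ (rowl k cs i) * t ^ (dl k i))) * clf q t cs
  rw [mul_comm]

theorem rowl_snoc (M : ℕ) (cs : List ℕ) (h : ∀ c ∈ cs, c ≤ M) :
    rowl (M + 1) cs = (Fin.snoc (rowl M cs) 0 : Fin (M + 1) → ℕ) := by
  funext i
  refine Fin.lastCases ?_ (fun j => ?_) i
  · rw [Fin.snoc_last]
    unfold rowl
    rw [List.countP_eq_zero]
    intro c hc
    have := h c hc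
    simp only [Fin.val_last, decide_eq_true_eq, not_lt]
    exact this
  · rw [Fin.snoc_castSucc]
    rfl

theorem step_b (hUN : ST_UN) (hSTB : ST_STB) (hPD : ST_PD) (hPM : ST_PM)
    (hDC : ST_DC) {K : Type} [Field K] (q t : K) (hgen : GQT q t) (M : ℕ) (cs : List ℕ)
    (hdec : Dec cs) (hcs : ∀ c ∈ cs, c ≤ M) (ih : PP q t M cs) : PP q t (M + 1) cs := by
  classical
  have hU := (hUN K q t).2.1 (M + 1) cs hdec (Nat.succ_pos M)
    (fun c hc => Nat.lt_succ_of_le (hcs c hc))
  have hrow := rowl_snoc M cs hcs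
  have hst : ∀ γ : Fin M → ℕ, coeff (ex (Fin.snoc γ 0 : Fin (M + 1) → ℕ)) (fJ q t (M + 1) cs)
      = coeff (ex γ) (fJ q t M cs) := fun γ => (hSTB K _).2 M γ
  have hA : ∀ γ : Fin (M + 1) → ℕ, coeff (ex γ) (fJ q t (M + 1) cs) ≠ 0 →
      Dge (fun i => (rowl (M + 1) cs i : ℤ)) (fun i => (γ i : ℤ)) := by
    by_contra hcon
    push Not at hcon
    obtain ⟨ν, hν0, hνD, hνa, hσ⟩ := badset hSTB hPM q t (M + 1) cs (rowl (M + 1) cs) hcon
    by_cases hl : ν (Fin.last M) = 0
    · have hsn : ν = (Fin.snoc (fun i : Fin M => ν (Fin.castSucc i)) 0 : Fin (M + 1) → ℕ) := by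
        funext i
        refine Fin.lastCases ?_ (fun j => ?_) i
        · rw [Fin.snoc_last]
          exact hl
        · rw [Fin.snoc_castSucc]
      rw [hsn, hst] at hν0
      have h1 := Dge_snoc (ih.1 _ hν0)
      apply hνD
      rw [hrow]
      rw [← hsn] at h1
      exact h1
    · have h2 := L2 hDC q t 1 (fJ q t (M + 1) cs) ν (by
        intro σ hσ1 hc
        by_contra hne
        exact hνD (Dge_trans ((hσ σ hσ1).1 hc hne) (PDb hPD ν hνa σ hc).1))
      rw [hU, coeff_zero] at h2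
      rcases mul_eq_zero.1 h2.symm with h3 | h3
      · exact hν0 h3
      · obtain ⟨i, _, hi⟩ := prod_eq_zero_iff.1 h3
        rw [one_mul] at hi
        refine hgen (ν i) (dl (M + 1) i) ?_ hi
        have h4 : ν (Fin.last M) ≤ ν i := hνa (Fin.le_last i)
        omega
  refine ⟨hA, ?_⟩
  rw [hrow, hst]
  exact ih.2

theorem st_TT (hUN : ST_UN) (hSTB : ST_STB) (hPD : ST_PD) (hPM : ST_PM) (hAL1 : ST_AL1)
    (hDC : ST_DC) : ST_TT := by
  intro K _ q t hgen N cs
  revert N
  induction cs with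
  | nil =>
    intro N _ _
    have h1 : fJ q t N [] = 1 := by
      show ev K N (ptm t (1 : Sy K)) = 1
      rw [map_one, map_one]
    have h0 : ex (fun _ : Fin N => 0) = 0 := by
      ext i
      rfl
    have hr : rowl N [] = fun _ => 0 := by
      funext i
      rfl
    refine ⟨?_, ?_⟩
    · intro γ hγ
      rw [h1, coeff_one] at hγ
      have h2 : (0 : Fin N →₀ ℕ) = ex γ := by
        by_contra h3
        rw [if_neg h3] at hγ
        exact hγ rfl
      rw [← h0] at h2
      have h3 := ex_inj h2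
      rw [hr, ← h3]
      intro T
      exact ⟨T, rfl, le_rfl⟩
    · rw [h1, hr, h0, coeff_one, if_pos rfl]
      rfl
  | cons k cs ih =>
    intro N hdec hle
    have hdec' : Dec cs := (List.pairwise_cons.1 hdec).2
    have hk : ∀ c ∈ cs, c ≤ k := (List.pairwise_cons.1 hdec).1
    have hall : ∀ c ∈ k :: cs, c ≤ k := by
      intro c hc
      rcases List.mem_cons.1 hc with h | h
      · exact h.le
      · exact hk c h
    have hkN : k ≤ N := hle k List.mem_cons_self
    have base : PP q t k (k :: cs) :=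
      step_a hUN hSTB hPD hPM hAL1 hDC q t k cs hdec (ih k hdec' hk)
    have main : PP q t N (k :: cs) := by
      clear hle
      induction N, hkN using Nat.le_induction with
      | base => exact base
      | succ M hM ihM =>
        exact step_b hUN hSTB hPD hPM hDC q t hgen M (k :: cs) hdec
          (fun c hc => (hall c hc).trans hM) ihM
    exact main

end Pool.Agent.Helper34.HL
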